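import Pool.Agent.W894.HT.Defs

set_option autoImplicit false

/-!
Project HT (helper894), part TOP: eliminating the top vertex.
-/

namespace Pool.Agent.W305.HTTop

open Pool.Agent.W894.HT

variable {A : Type} [CommRing A]

lemma Rr_cons (φ : ℕ → ℕ → A) (fin : ℕ → (ℕ → ℕ) → A) (x v : ℕ) (l : List ℕ) (κ : ℕ → ℕ) :
    Rr φ fin x (v :: l) κ = (if x < v then Rr φ fin v l (fun z => κ z + itv x v z) else 0) +
      φ x v * Rr φ fin v l κ := rfl

lemma Rr_nil (φ : ℕ → ℕ → A) (fin : ℕ → (ℕ → ℕ) → A) (x : ℕ) (κ : ℕ → ℕ) :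
    Rr φ fin x [] κ = fin x κ := rfl

/-- the filter at a position above all elements -/
lemma Rr_filter (φ : ℕ → ℕ → A) (fin : ℕ → (ℕ → ℕ) → A) (z : ℕ) (l : List ℕ) :
    ∀ (x : ℕ) (κ : ℕ → ℕ), x < z → (∀ u ∈ l, u < z) →
    Rr φ (fun u κ => if Odd (κ z + low u z) then fin u κ else 0) x l κ =
      if Odd (κ z + 1) then Rr φ fin x l κ else 0 := by
  induction l with
  | nil =>
    intro x κ hx _
    rw [Rr_nil, Rr_nil]
    simp only [low, if_pos hx]
  | cons u l ih =>
    intro x κ hx hl
    have hu : u < z := hl u (by simp)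
    have hl' : ∀ w ∈ l, w < z := fun w hw => hl w (by simp [hw])
    rw [Rr_cons, Rr_cons, ih u _ hu hl', ih u _ hu hl']
    have h1 : itv x u z = 0 := by
      unfold itv
      rw [if_neg]
      omega
    rw [h1, add_zero]
    split_ifs <;> simp

lemma sum_map_cons (φ : ℕ → ℕ → A) (g : ℕ → (ℕ → ℕ) → A) (x u : ℕ) (κ : ℕ → ℕ)
    (L : List (List ℕ)) :
    ((L.map (List.cons u)).map fun l' => Rr φ g x l' κ).sum =
      (if x < u then (L.map fun l' => Rr φ g u l' (fun z => κ z + itv x u z)).sum else 0) +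
        φ x u * (L.map fun l' => Rr φ g u l' κ).sum := by
  induction L with
  | nil => simp
  | cons a L ih =>
    rw [List.map_cons, List.map_cons, List.sum_cons, ih, List.map_cons, List.sum_cons,
      List.map_cons, List.sum_cons, Rr_cons]
    split_ifs <;> ring

/-- the first component of the dual word sum -/
lemma dfst (φ : ℕ → ℕ → A) (fin : ℕ → (ℕ → ℕ) → A) (v : ℕ) (l : List ℕ) :
    ∀ (x : ℕ) (κ : ℕ → ℕ),
    (Rr (A := DualNumber A) (dl φ v) (fun u κ => TrivSqZeroExt.inl (fin u κ)) x l κ).fst =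
      Rr φ fin x l κ := by
  induction l with
  | nil =>
    intro x κ
    exact TrivSqZeroExt.fst_inl _ _
  | cons u l ih =>
    intro x κ
    rw [Rr_cons, Rr_cons, TrivSqZeroExt.fst_add, TrivSqZeroExt.fst_mul, ih u κ]
    have h1 : (dl φ v x u).fst = φ x u := by
      unfold dl
      rw [TrivSqZeroExt.fst_add, TrivSqZeroExt.fst_inl, TrivSqZeroExt.fst_inr, add_zero]
    rw [h1]
    split_ifs
    · rw [ih]
    · rw [TrivSqZeroExt.fst_zero]

theorem main : S_TOP := by
  intro A _ φ fin v z hzv _ hfin l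
  induction l with
  | nil =>
    intro x κ hx _ hκ
    have h1 : List.permutations'Aux v [] = [[v]] := rfl
    have hxv : x < v := hx.trans hzv
    have h2 : itv x v z = 1 := by
      unfold itv
      rw [if_pos ⟨hx, hzv⟩]
    have h3 : low v z = 0 := by
      unfold low
      rw [if_neg (not_lt.2 hzv.le)]
    rw [h1, List.map_cons, List.map_nil, List.sum_cons, List.sum_nil, Rr_cons, Rr_nil, Rr_nil,
      Rr_nil, Rr_nil, TrivSqZeroExt.snd_inl, if_pos hxv]
    beta_reduce
    rw [h2, h3, hκ, hfin x κ hxv]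
    simp
  | cons u l ih =>
    intro x κ hx hl hκ
    have hu : u < z := hl u (by simp)
    have hl' : ∀ w ∈ l, w < z := fun w hw => hl w (by simp [hw])
    have h1 : List.permutations'Aux v (u :: l) =
        (v :: u :: l) :: (List.permutations'Aux v l).map (List.cons u) := rfl
    have hxv : x < v := hx.trans hzv
    have hvu : ¬ v < u := by omega
    have h2 : itv x v z = 1 := by
      unfold itv
      rw [if_pos ⟨hx, hzv⟩]
    have h3 : itv x u z = 0 := by
      unfold itv
      rw [if_neg]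
      omega
    rw [h1, List.map_cons, List.sum_cons, sum_map_cons, ih u κ hu hl' hκ,
      ih u (fun w => κ w + itv x u w) hu hl' (by
        rw [h3, hκ]),
      Rr_cons _ _ x v, if_pos hxv, Rr_cons _ _ v u, if_neg hvu, Rr_cons _ _ v u, if_neg hvu,
      Rr_filter φ fin z l u _ hu hl', Rr_filter φ fin z l u _ hu hl']
    rw [h2, hκ, Rr_cons φ fin x u, Rr_cons (dl φ v) _ x u, TrivSqZeroExt.snd_add,
      TrivSqZeroExt.snd_mul, dfst]
    have h4 : (dl φ v x u).fst = φ x u := by
      unfold dl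
      rw [TrivSqZeroExt.fst_add, TrivSqZeroExt.fst_inl, TrivSqZeroExt.fst_inr, add_zero]
    have h5 : (dl φ v x u).snd = φ x v * φ v u := by
      unfold dl
      rw [TrivSqZeroExt.snd_add, TrivSqZeroExt.snd_inl, TrivSqZeroExt.snd_inr, zero_add]
    rw [h4, h5]
    have h6 : ¬ Odd (0 + 1 + 1) := by decide
    have h7 : Odd (0 + 1) := by decide
    rw [if_neg h6, if_pos h7]
    simp only [smul_eq_mul, MulOpposite.smul_eq_mul_unop, MulOpposite.unop_op]
    split_ifs
    · ring
    · rw [TrivSqZeroExt.snd_zero]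
      ring

end Pool.Agent.W305.HTTop
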